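import Pool.Agent.K1H42.PLP.Fin

/-!
# The points-lines-planes conjecture (Mason 1972)

Let `M` be a finite matroid of rank at least three, with `n` points (flats of rank 1), `t` lines (flats of rank 2)
and `π` planes (flats of rank 3). Then `n ≥ 3`, `t² ≥ 3 n (n - 1) / (2 (n - 2)) · π`, and equality forces every
plane to contain exactly three points.

Proof. For a point `x` on a line `l` put `a(x, l) = 1/|l| + d(x) - (mean of d over l)`; the numbers on a line add
up to `1`, and since the Laplacian `d ↦ ∑_{l ∋ x} (d(x) - mean_l d)` is onto the functions of sum zero, `d` can be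
chosen so that the numbers at every point add up to `t/n`. Two distinct lines through a point span one plane, so
`t²/n = ∑_{x,l} a(x,l)² + ∑_p F_p`, where `F_p` is the sum over `x ∈ p` of `a(x,l) a(x,l')` over the ordered pairs of
distinct lines `l, l' ⊆ p` through `x`. Here `∑ a² ≥ ∑ 1/|l| ≥ t²/(n(n-1))`, and for every plane with `N` points and
`T` lines `F_p ≥ T²/(N-1) - ∑_{l ⊆ p} 1/(|l|-1) ≥ 3/2` for every `d`, the last step by `T ≥ N` (de Bruijn, Erdős),
with strict inequality if `N ≥ 4`.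
-/

set_option autoImplicit false

namespace Pool.Agent.Results.MP_5bba21_co.MasonPointsLinesPlanes

/-- **Mason's points-lines-planes conjecture.** Let `M` be a finite matroid of rank at least three.
(1) If `M` is simple (every set of at most two elements of the ground set is independent), with `n` elements, `t`
flats of rank two and `π` flats of rank three, then `3 ≤ n`, `3n(n-1)/(2(n-2)) · π ≤ t²`, and equality implies that
every flat of rank three has exactly three elements.
(2) Without the assumption of simplicity the same holds with `n` the number of flats of rank one, and with the number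
of flats of rank one contained in a flat of rank three. -/
theorem result {α : Type*} (M : Matroid α) [M.Finite] (hrank : 3 ≤ M.eRank) :
    ((∀ x ∈ M.E, ∀ y ∈ M.E, M.Indep {x, y}) →
      (3 : ℝ) ≤ M.E.ncard ∧
      3 * (M.E.ncard : ℝ) * ((M.E.ncard : ℝ) - 1) / (2 * ((M.E.ncard : ℝ) - 2)) *
        ({p : Set α | M.IsFlat p ∧ M.eRk p = 3}.ncard : ℝ) ≤
          ({l : Set α | M.IsFlat l ∧ M.eRk l = 2}.ncard : ℝ) ^ 2 ∧
      (({l : Set α | M.IsFlat l ∧ M.eRk l = 2}.ncard : ℝ) ^ 2 =
        3 * (M.E.ncard : ℝ) * ((M.E.ncard : ℝ) - 1) / (2 * ((M.E.ncard : ℝ) - 2)) *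
        ({p : Set α | M.IsFlat p ∧ M.eRk p = 3}.ncard : ℝ) →
        ∀ p : Set α, M.IsFlat p → M.eRk p = 3 → p.ncard = 3)) ∧
    ((3 : ℝ) ≤ {x : Set α | M.IsFlat x ∧ M.eRk x = 1}.ncard ∧
      3 * ({x : Set α | M.IsFlat x ∧ M.eRk x = 1}.ncard : ℝ) *
        (({x : Set α | M.IsFlat x ∧ M.eRk x = 1}.ncard : ℝ) - 1) /
        (2 * (({x : Set α | M.IsFlat x ∧ M.eRk x = 1}.ncard : ℝ) - 2)) *
        ({p : Set α | M.IsFlat p ∧ M.eRk p = 3}.ncard : ℝ) ≤
          ({l : Set α | M.IsFlat l ∧ M.eRk l = 2}.ncard : ℝ) ^ 2 ∧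
      (({l : Set α | M.IsFlat l ∧ M.eRk l = 2}.ncard : ℝ) ^ 2 =
        3 * ({x : Set α | M.IsFlat x ∧ M.eRk x = 1}.ncard : ℝ) *
        (({x : Set α | M.IsFlat x ∧ M.eRk x = 1}.ncard : ℝ) - 1) /
        (2 * (({x : Set α | M.IsFlat x ∧ M.eRk x = 1}.ncard : ℝ) - 2)) *
        ({p : Set α | M.IsFlat p ∧ M.eRk p = 3}.ncard : ℝ) →
        ∀ p : Set α, M.IsFlat p → M.eRk p = 3 →
          {x : Set α | M.IsFlat x ∧ M.eRk x = 1 ∧ x ⊆ p}.ncard = 3)) :=
  ⟨fun hs => Pool.Agent.K1H42.PLP.plp_simple M hs hrank, Pool.Agent.K1H42.PLP.plp M hrank⟩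

end Pool.Agent.Results.MP_5bba21_co.MasonPointsLinesPlanes
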